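import Pool.Agent.N554.HKS.Def

/-!
# Project HK, leaf PAL: infinitely many palindromes (helper933 for helper554)
-/

set_option autoImplicit false

namespace Pool.Agent.N933.HKS

open Pool.Agent.N554.HKS

theorem seg_len {A : Type*} (u : ℕ → A) (i n : ℕ) : (seg u i n).length = n := by
  unfold seg
  simp

theorem seg_add {A : Type*} (u : ℕ → A) (i m n : ℕ) :
    seg u i (m + n) = seg u i m ++ seg u (i + m) n := by
  unfold seg
  rw [List.range_add, List.map_append, List.map_map]
  congr 1
  apply List.map_congr_left
  intro j _
  simp only [Function.comp_apply, add_assoc]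

theorem lang_sub {A : Type*} (u : ℕ → A) (i N : ℕ) (X Y Z : List A)
    (h : seg u i N = X ++ (Y ++ Z)) : Y ∈ Lang u := by
  have hN : N = X.length + (Y.length + Z.length) := by
    have := congrArg List.length h
    rw [seg_len, List.length_append, List.length_append] at this
    exact this
  rw [hN, seg_add, seg_add] at h
  have h1 := (List.append_inj h (seg_len _ _ _)).2
  have h2 := (List.append_inj h1 (seg_len _ _ _)).1
  exact ⟨i + X.length, h2.symm⟩

theorem ext_nil {A B : Type*} (f : A → List B) : ext f [] = [] := rfl

theorem ext_cons {A B : Type*} (f : A → List B) (a : A) (l : List A) :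
    ext f (a :: l) = f a ++ ext f l := by
  unfold ext
  rw [List.flatMap_cons]

theorem ext_append {A B : Type*} (f : A → List B) (l l' : List A) :
    ext f (l ++ l') = ext f l ++ ext f l' := by
  unfold ext
  rw [List.flatMap_append]

theorem ext_single {A B : Type*} (f : A → List B) (a : A) : ext f [a] = f a := by
  rw [ext_cons, ext_nil, List.append_nil]

theorem len_ext {A B : Type*} (f : A → List B) (h : ∀ a, f a ≠ []) (l : List A) :
    l.length ≤ (ext f l).length := by
  induction l with
  | nil => simp
  | cons a l ih =>
    rw [ext_cons, List.length_append, List.length_cons]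
    have := List.length_pos_iff.2 (h a)
    omega

theorem ext_rev {A B : Type*} (f q : A → List B) (W : List B) (hW : W.reverse = W)
    (hq : ∀ a, (q a).reverse = q a) (hf : ∀ a, f a = W ++ q a) (l : List A) :
    (ext f l ++ W).reverse = ext f l.reverse ++ W := by
  induction l with
  | nil => rw [ext_nil, List.nil_append, hW, List.reverse_nil, ext_nil, List.nil_append]
  | cons a l ih =>
    rw [ext_cons, List.append_assoc, List.reverse_append, ih, List.reverse_cons, ext_append,
      ext_single, hf, List.reverse_append, hW, hq]
    simp only [List.append_assoc]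

/-- the palindrome `W` -/
def W : List (Fin 6) := beta ++ [5] ++ beta.reverse

theorem W_rev : W.reverse = W := by decide

theorem mu_rev : ∀ y, (mu y).reverse = mu y := by decide

theorem theta_eq (y : Fin 6) : theta y = W ++ mu y := rfl

theorem theta_ne (y : Fin 6) : theta y ≠ [] := by
  rw [theta_eq]
  intro h
  have := congrArg List.length h
  rw [List.length_append] at this
  have h2 : W.length = 19 := by decide
  rw [h2, List.length_nil] at this
  omega

/-- the palindromes `q_y` -/
def q (y : Fin 6) : List (Fin 7) := if y = 0 then [0, 0] else [y.castSucc]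

theorem q_rev : ∀ y, (q y).reverse = q y := by decide

theorem sigma_eq : ∀ y, sigma y = [6] ++ q y := by decide

theorem sigma_ne (y : Fin 6) : sigma y ≠ [] := by
  rw [sigma_eq]
  simp

/-- the palindromes of `w` -/
def Pw : ℕ → List (Fin 6)
  | 0 => [1]
  | (k + 1) => ext theta (Pw k) ++ W

theorem Pw_rev (k : ℕ) : (Pw k).reverse = Pw k := by
  induction k with
  | zero => rfl
  | succ k ih =>
    show (ext theta (Pw k) ++ W).reverse = ext theta (Pw k) ++ W
    rw [ext_rev theta mu W W_rev mu_rev theta_eq, ih]

theorem Pw_len (k : ℕ) : k + 1 ≤ (Pw k).length := by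
  induction k with
  | zero => exact le_rfl
  | succ k ih =>
    show k + 1 + 1 ≤ (ext theta (Pw k) ++ W).length
    rw [List.length_append]
    have h1 := len_ext theta theta_ne (Pw k)
    have h2 : W.length = 19 := by decide
    omega

theorem Pw_lang (hW : WST) (k : ℕ) : Pw k ∈ Lang w := by
  induction k with
  | zero =>
    refine ⟨0, ?_⟩
    show [1] = seg w 0 1
    unfold seg
    have : w 0 = 1 := by rw [w]
    simp [List.range_succ, this]
  | succ k ih =>
    obtain ⟨i, hi⟩ := ih
    have h1 : seg w i ((Pw k).length + 1) = Pw k ++ seg w (i + (Pw k).length) 1 := by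
      rw [seg_add, ← hi]
    have h2 : seg w (i + (Pw k).length) 1 = [w (i + (Pw k).length)] := by
      unfold seg
      simp [List.range_succ]
    have h3 := hW.2 i ((Pw k).length + 1)
    rw [h1, h2, ext_append, ext_single, theta_eq] at h3
    refine lang_sub w _ _ [] _ (mu (w (i + (Pw k).length))) (h3.trans ?_)
    show _ = [] ++ ((ext theta (Pw k) ++ W) ++ mu (w (i + (Pw k).length)))
    rw [List.nil_append, List.append_assoc]

theorem PAL_of (hI : IMG) (hW : WST) : PAL := by
  unfold PAL
  refine Set.Infinite.of_image List.length ?_
  refine Set.infinite_of_forall_exists_gt fun N => ?_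
  refine ⟨(ext sigma (Pw N) ++ [6]).length, ⟨ext sigma (Pw N) ++ [6], ⟨?_, ?_⟩, rfl⟩, ?_⟩
  · obtain ⟨i, hi⟩ := Pw_lang hW N
    have h1 : seg w 0 (i + ((Pw N).length + 1)) =
        seg w 0 i ++ (Pw N ++ [w (i + (Pw N).length)]) := by
      have h2 : seg w (i + (Pw N).length) 1 = [w (i + (Pw N).length)] := by
        unfold seg
        simp [List.range_succ]
      rw [seg_add, zero_add, seg_add, ← hi, h2]
    have h3 := hI (Fin 6) (Fin 7) inferInstance sigma sigma_ne w (i + ((Pw N).length + 1))
    rw [h1, ext_append, ext_append, ext_single, sigma_eq] at h3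
    refine lang_sub u _ _ (ext sigma (seg w 0 i)) _ (q (w (i + (Pw N).length))) (h3.trans ?_)
    simp only [List.append_assoc]
  · have h1 := ext_rev sigma q [6] rfl q_rev sigma_eq (Pw N)
    rw [h1, Pw_rev]
  · rw [List.length_append]
    have h1 := len_ext sigma sigma_ne (Pw N)
    have h2 := Pw_len N
    omega

end Pool.Agent.N933.HKS
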